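import Pool.Agent.W770.PC.SphStms

/-!
PC-sph1: polynomial chirps with a smooth cutoff to the cap (project PC, helper770).
-/

set_option autoImplicit false

open MeasureTheory Set Filter Topology
open scoped ENNReal NNReal RealInnerProductSpace

namespace Pool.Agent.W391.PC.Sph1

open Pool.Agent.W770.PC
open Pool.Agent.H789R2.FR (E sg)

/-! ### The amplitude -/

theorem chi_pos (r : ℝ) : 0 < chi r := by
  unfold chi
  have h0 := Real.smoothTransition.nonneg (4 * r - 1)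
  have h1 := Real.smoothTransition.le_one (4 * r - 1)
  rcases le_or_gt r 0 with hr | hr
  · rw [Real.smoothTransition.zero_of_nonpos (by linarith)]
    norm_num
  · rcases eq_or_lt_of_le h1 with h | h
    · rw [h]
      linarith
    · have h2 : 0 ≤ Real.smoothTransition (4 * r - 1) * r := mul_nonneg h0 hr.le
      linarith

theorem hh_pos (y : ℝ × ℝ) : 0 < hh y := Real.sqrt_pos.2 (chi_pos _)

/-- the point of the cap over `y` -/
noncomputable def pt (y : ℝ × ℝ) : E 3 := !₂[y.1, y.2, hh y]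

theorem pt_smooth (h5 : S_hh) : ContDiff ℝ (⊤ : ℕ∞) pt := by
  rw [contDiff_euclidean]
  intro i
  fin_cases i
  · exact contDiff_fst
  · exact contDiff_snd
  · exact h5.1

/-- the amplitude over the plane -/
noncomputable def am (χ : E 3 → ℝ) (y : ℝ × ℝ) : ℝ := χ (pt y) / hh y

theorem am_smooth (h5 : S_hh) {χ : E 3 → ℝ} (hχ : CapF χ) : ContDiff ℝ (⊤ : ℕ∞) (am χ) :=
  (hχ.1.comp (pt_smooth h5)).div h5.1 fun y => (hh_pos y).ne'

theorem am_supp {χ : E 3 → ℝ} (hχ : CapF χ) {y : ℝ × ℝ} (hy : y ∉ box 0 (1 / 8)) : χ (pt y) = 0 := by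
  by_contra h
  have h1 := hχ.2 _ h
  apply hy
  have e0 : pt y 0 = y.1 := rfl
  have e1 : pt y 1 = y.2 := rfl
  rw [e0, e1] at h1
  obtain ⟨h2, h3, -⟩ := h1
  rw [abs_le] at h2 h3
  refine ⟨⟨?_, ?_⟩, ⟨?_, ?_⟩⟩ <;> simp <;> linarith [h2.1, h2.2, h3.1, h3.2]

theorem sc_smooth : ContDiff ℝ (⊤ : ℕ∞) sc := by
  unfold sc
  exact ((contDiff_fst.sub contDiff_const).div_const _).prodMk
    ((contDiff_snd.sub contDiff_const).div_const _)

/-- the amplitude on the unit square -/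
noncomputable def psi (χ : E 3 → ℝ) (z : ℝ × ℝ) : ℂ := ((am χ (sc z) : ℝ) : ℂ)

theorem psi_smooth (h5 : S_hh) {χ : E 3 → ℝ} (hχ : CapF χ) : ContDiff ℝ (⊤ : ℕ∞) (psi χ) :=
  Complex.ofRealCLM.contDiff.comp ((am_smooth h5 hχ).comp sc_smooth)

theorem psi_supp {χ : E 3 → ℝ} (hχ : CapF χ) {z : ℝ × ℝ} (hz : z ∉ Sq) : psi χ z = 0 := by
  have h1 : sc z ∉ box 0 (1 / 8) := by
    intro h
    apply hz
    obtain ⟨⟨h2, h3⟩, ⟨h4, h5⟩⟩ := h
    simp only [sc, Prod.fst_zero, Prod.snd_zero] at h2 h3 h4 h5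
    exact ⟨⟨by linarith, by linarith⟩, ⟨by linarith, by linarith⟩⟩
  unfold psi am
  rw [am_supp hχ h1]
  simp

theorem isCompact_Sq : IsCompact Sq := isCompact_Icc.prod isCompact_Icc

theorem amp_of {f : ℝ × ℝ → ℂ} (hf : ContDiff ℝ (⊤ : ℕ∞) f) (hs : ∀ y, y ∉ Sq → f y = 0) :
    ∃ B : ℝ, Amp B f := by
  have hc : HasCompactSupport f := HasCompactSupport.of_support_subset_isCompact isCompact_Sq
    fun x hx => by
      by_contra h
      exact hx (hs x h)
  have h1 : ∀ j : ℕ, ∃ B : ℝ, ∀ x, ‖iteratedFDeriv ℝ j f x‖ ≤ B := fun j =>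
    (hf.continuous_iteratedFDeriv (by exact_mod_cast le_top)).bounded_above_of_compact_support
      (hc.iteratedFDeriv j)
  choose Bj hBj using h1
  have h0 : ∀ j, 0 ≤ Bj j := fun j => (norm_nonneg _).trans (hBj j 0)
  have hle : ∀ j ≤ 3, Bj j ≤ ∑ i ∈ Finset.range 4, Bj i := by
    intro j hj
    exact Finset.single_le_sum (f := Bj) (fun i _ => h0 i) (Finset.mem_range.2 (by omega))
  have key : ∀ (L : ℝ →L[ℝ] ℝ × ℝ), ‖L‖ ≤ 1 → ∀ (a : ℝ × ℝ) (j : ℕ) (u : ℝ),
      ‖iteratedDeriv j (fun u => f (L u + a)) u‖ ≤ Bj j := by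
    intro L hL a j u
    have e1 : (fun u => f (L u + a)) = (fun w => f (w + a)) ∘ L := rfl
    have e2 : ContDiff ℝ j (fun w => f (w + a)) :=
      (hf.of_le (by exact_mod_cast le_top)).comp (contDiff_id.add contDiff_const)
    rw [← norm_iteratedFDeriv_eq_norm_iteratedDeriv, e1,
      L.iteratedFDeriv_comp_right e2 u le_rfl]
    refine (ContinuousMultilinearMap.norm_compContinuousLinearMap_le _ _).trans ?_
    rw [iteratedFDeriv_comp_add_right]
    have e3 : ∏ _i : Fin j, ‖L‖ ≤ 1 := by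
      rw [Finset.prod_const]
      exact pow_le_one₀ (norm_nonneg _) hL
    calc ‖iteratedFDeriv ℝ j f (L u + a)‖ * ∏ _i : Fin j, ‖L‖ ≤ Bj j * 1 :=
          mul_le_mul (hBj j _) e3 (Finset.prod_nonneg fun _ _ => norm_nonneg _) (h0 j)
      _ = Bj j := mul_one _
  refine ⟨∑ i ∈ Finset.range 4, Bj i, hf, hs, ?_, ?_⟩
  · intro j hj y
    have e : (fun u => f (u, y.2)) =
        fun u => f (ContinuousLinearMap.inl ℝ ℝ ℝ u + ((0 : ℝ), y.2)) := by
      funext u
      simp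
    rw [e]
    exact (key _ (ContinuousLinearMap.norm_inl_le_one ℝ ℝ ℝ) _ j _).trans (hle j hj)
  · intro j hj y
    have e : (fun v => f (y.1, v)) =
        fun v => f (ContinuousLinearMap.inr ℝ ℝ ℝ v + (y.1, (0 : ℝ))) := by
      funext u
      simp
    rw [e]
    exact (key _ (ContinuousLinearMap.norm_inr_le_one ℝ ℝ ℝ) _ j _).trans (hle j hj)

/-! ### Exponentials -/

theorem ee_add (a b : ℝ) : ee (a + b) = ee a * ee b := by
  unfold ee
  rw [← Complex.exp_add]
  congr 1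
  push_cast
  ring

theorem norm_ee (a : ℝ) : ‖ee a‖ = 1 := by
  unfold ee
  exact Complex.norm_exp_ofReal_mul_I a

theorem ee_cont : Continuous ee := by
  unfold ee
  fun_prop

/-! ### The integral over the cap -/

/-- the linear change of variables in frequency space -/
noncomputable def La (ξ : E 3) : (ℝ × ℝ) × ℝ :=
  ((-(Real.pi / 2) * ξ 0, -(Real.pi / 2) * ξ 1), -(2 * Real.pi) * ξ 2)

theorem sf_int (h3 : S_graph) (h4 : S_capint) (h5 : S_hh) {χ : E 3 → ℝ} (hχ : CapF χ) (D : ℕ)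
    (P : MvPolynomial (Fin 3) ℝ) (hP : P.totalDegree ≤ D) :
    ∃ A B : MvPolynomial (Fin 2) ℝ, A.totalDegree ≤ D ∧ B.totalDegree ≤ D ∧ ∀ ξ : E 3,
      ‖SF (fun x => ((χ x : ℝ) : ℂ) * pe P x) ξ‖ = 1 / 16 *
        ‖EE (fun z => hh (sc z)) (fun z => psi χ z * ee (sf A B (sc z))) (La ξ).1 (La ξ).2‖ := by
  obtain ⟨A, B, hA, hB, hAB⟩ := h3 D P hP
  refine ⟨A, B, hA, hB, fun ξ => ?_⟩
  -- the integrand over the plane
  let G : ℝ × ℝ → ℂ := fun y => ((am χ y : ℝ) : ℂ) * ee (sf A B y) *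
    ee (-(2 * Real.pi * (y.1 * ξ 0 + y.2 * ξ 1 + hh y * ξ 2)))
  have hm : Measurable fun x : E 3 =>
      ee (-(2 * Real.pi * ⟪x, ξ⟫)) * (((χ x : ℝ) : ℂ) * pe P x) := by
    have c1 : Continuous fun x : E 3 => ee (-(2 * Real.pi * ⟪x, ξ⟫)) :=
      ee_cont.comp (by fun_prop)
    have c2 : Continuous fun x : E 3 => ((χ x : ℝ) : ℂ) :=
      Complex.continuous_ofReal.comp hχ.1.continuous
    have c3 : Continuous fun x : E 3 => pe P x :=
      ee_cont.comp ((MvPolynomial.continuous_eval P).comp (by fun_prop))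
    exact (c1.mul (c2.mul c3)).measurable
  have e1 : SF (fun x => ((χ x : ℝ) : ℂ) * pe P x) ξ = ∫ y in box 0 (1 / 8), G y := by
    unfold SF
    rw [h4 _ hm (fun x hx => hχ.2 x fun h => hx (by rw [h]; simp))]
    refine setIntegral_congr_fun (measurableSet_Icc.prod measurableSet_Icc) fun y hy => ?_
    have hyD : y ∈ Dm := by
      obtain ⟨⟨a1, a2⟩, ⟨a3, a4⟩⟩ := hy
      simp only [Prod.fst_zero, Prod.snd_zero] at a1 a2 a3 a4
      refine ⟨⟨?_, ?_⟩, ⟨?_, ?_⟩⟩ <;> simp only [Prod.fst_zero, Prod.snd_zero] <;> linarith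
    have hyU : y ∈ U0 := h5.2.1 hyD
    have f1 : pe P (!₂[y.1, y.2, hh y] : E 3) = ee (sf A B y) := by
      unfold pe
      rw [← hAB y hyU]
    have f2 : (⟪(!₂[y.1, y.2, hh y] : E 3), ξ⟫ : ℝ) = y.1 * ξ 0 + y.2 * ξ 1 + hh y * ξ 2 := by
      rw [PiLp.inner_apply, Fin.sum_univ_three]
      simp only [RCLike.inner_apply, conj_trivial]
      change ξ 0 * y.1 + ξ 1 * y.2 + ξ 2 * hh y = _
      ring
    change ee (-(2 * Real.pi * ⟪(!₂[y.1, y.2, hh y] : E 3), ξ⟫)) *
      (((χ (!₂[y.1, y.2, hh y] : E 3) : ℝ) : ℂ) * pe P (!₂[y.1, y.2, hh y] : E 3)) /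
        ((hh y : ℝ) : ℂ) = G y
    rw [f1, f2]
    simp only [G, am, pt]
    push_cast
    ring
  have e2 : ∫ y in box 0 (1 / 8), G y = ∫ y, G y := by
    refine setIntegral_eq_integral_of_forall_compl_eq_zero fun y hy => ?_
    simp only [G, am]
    rw [am_supp hχ hy]
    simp
  have e3 : ∫ z, G (sc z) = (16 : ℝ) • ∫ y, G y := by
    have g1 : (fun z => G (sc z)) = fun z => (fun w => G ((1 / 4 : ℝ) • w)) (z - (1 / 2, 1 / 2)) := by
      funext z
      have g2 : sc z = (1 / 4 : ℝ) • (z - ((1 / 2 : ℝ), (1 / 2 : ℝ))) := by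
        unfold sc
        ext <;> simp <;> ring
      rw [g2]
    rw [g1, integral_sub_right_eq_self (fun w => G ((1 / 4 : ℝ) • w)),
      Measure.integral_comp_smul]
    have g3 : Module.finrank ℝ (ℝ × ℝ) = 2 := by simp
    rw [g3]
    norm_num
  have e4 : ∫ z, G (sc z) = ee (Real.pi / 4 * (ξ 0 + ξ 1)) *
      EE (fun z => hh (sc z)) (fun z => psi χ z * ee (sf A B (sc z))) (La ξ).1 (La ξ).2 := by
    unfold EE
    rw [← integral_const_mul]
    refine integral_congr_ae (Eventually.of_forall fun z => ?_)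
    simp only [G, psi]
    have g4 : -(2 * Real.pi * ((sc z).1 * ξ 0 + (sc z).2 * ξ 1 + hh (sc z) * ξ 2)) =
        Real.pi / 4 * (ξ 0 + ξ 1) +
          ((La ξ).1.1 * z.1 + (La ξ).1.2 * z.2 + (La ξ).2 * hh (sc z)) := by
      simp only [La, sc]
      ring
    rw [g4, ee_add]
    ring
  have e5 : ∫ y, G y = (1 / 16 : ℝ) • ∫ z, G (sc z) := by
    rw [e3, smul_smul]
    norm_num
  rw [e1, e2, e5, e4, norm_smul, norm_mul, norm_ee, one_mul]
  norm_num

/-! ### The change of variables in frequency space -/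

/-- `La` as a linear equivalence -/
noncomputable def Lae : E 3 ≃L[ℝ] (ℝ × ℝ) × ℝ :=
  LinearEquiv.toContinuousLinearEquiv
    { toFun := La
      map_add' := fun x y => by
        simp only [La, PiLp.add_apply]
        ext <;> simp <;> ring
      map_smul' := fun c x => by
        simp only [La, PiLp.smul_apply, smul_eq_mul, RingHom.id_apply]
        ext <;> simp <;> ring
      invFun := fun z => !₂[-(2 / Real.pi) * z.1.1, -(2 / Real.pi) * z.1.2,
        -(1 / (2 * Real.pi)) * z.2]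
      left_inv := fun x => by
        have hp := Real.pi_ne_zero
        ext i
        fin_cases i <;> simp [La] <;> field_simp
      right_inv := fun z => by
        have hp := Real.pi_ne_zero
        simp only [La]
        ext <;> simp <;> field_simp }

theorem Lae_apply (ξ : E 3) : Lae ξ = La ξ := rfl

theorem map_La : ∃ c : ℝ≥0, Measure.map La (volume : Measure (E 3)) =
    c • (volume : Measure ((ℝ × ℝ) × ℝ)) := by
  have h2 : (volume : Measure (ℝ × ℝ)).IsAddHaarMeasure := by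
    rw [Measure.volume_eq_prod]
    infer_instance
  have h3 : (volume : Measure ((ℝ × ℝ) × ℝ)).IsAddHaarMeasure := by
    rw [Measure.volume_eq_prod]
    infer_instance
  have h1 : (Measure.map (⇑Lae) (volume : Measure (E 3))).IsAddHaarMeasure := inferInstance
  refine ⟨Measure.addHaarScalarFactor (Measure.map (⇑Lae) (volume : Measure (E 3))) volume, ?_⟩
  exact Measure.isAddLeftInvariant_eq_smul (Measure.map (⇑Lae) (volume : Measure (E 3))) volume

theorem sph1_thm (h1 : S_main) (h2 : S_stame) (h3 : S_graph) (h4 : S_capint) (h5 : S_hh) :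
    S_sph1 := by
  intro D p χ hp hχ
  obtain ⟨B, hB⟩ := amp_of (psi_smooth h5 hχ) (fun y hy => psi_supp hχ hy)
  obtain ⟨C, hC⟩ := h2 D
  obtain ⟨K, hK⟩ := h1 p C B hp
  obtain ⟨c, hc⟩ := map_La
  refine ⟨1 / 16 * ((c : ℝ) ^ (1 / p) * max K 0), by positivity, fun P hP => ?_⟩
  obtain ⟨A, A', hA, hA', hS⟩ := sf_int h3 h4 h5 hχ D P hP
  have hp0 : 0 < p := by linarith
  have k1 := hK (psi χ) (fun z => sf A A' (sc z)) (fun z => hh (sc z)) hB (hC A A' hA hA')
  let F : (ℝ × ℝ) × ℝ → ℂ := fun z =>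
    EE (fun z => hh (sc z)) (fun z => psi χ z * ee (sf A A' (sc z))) z.1 z.2
  have k2 : eLpNorm (SF (fun x => ((χ x : ℝ) : ℂ) * pe P x)) (ENNReal.ofReal p) volume ≤
      ENNReal.ofReal (1 / 16) * eLpNorm (F ∘ La) (ENNReal.ofReal p) volume := by
    refine eLpNorm_le_mul_eLpNorm_of_ae_le_mul (Eventually.of_forall fun ξ => ?_) _
    exact (hS ξ).le
  have k3 : eLpNorm (F ∘ La) (ENNReal.ofReal p) volume =
      eLpNorm F (ENNReal.ofReal p) (Measure.map La volume) :=
    (MeasurableEmbedding.eLpNorm_map_measure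
      (Lae.toHomeomorph.measurableEmbedding)).symm
  have k4 : eLpNorm F (ENNReal.ofReal p) (Measure.map La volume) =
      ENNReal.ofReal ((c : ℝ) ^ (1 / p)) * eLpNorm F (ENNReal.ofReal p) volume := by
    rw [hc, eLpNorm_smul_measure_of_ne_top' ENNReal.ofReal_ne_top, ENNReal.toReal_ofReal hp0.le]
    rw [ENNReal.smul_def, smul_eq_mul]
    congr 1
    rw [← ENNReal.ofReal_coe_nnreal, NNReal.coe_rpow, one_div]
  calc eLpNorm (SF (fun x => ((χ x : ℝ) : ℂ) * pe P x)) (ENNReal.ofReal p) volume ≤ _ := k2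
    _ ≤ ENNReal.ofReal (1 / 16) * (ENNReal.ofReal ((c : ℝ) ^ (1 / p)) *
        ENNReal.ofReal (max K 0)) := by
          rw [k3, k4]
          gcongr
          exact k1.trans (ENNReal.ofReal_le_ofReal (le_max_left _ _))
    _ = _ := by
          rw [← ENNReal.ofReal_mul (by positivity), ← ENNReal.ofReal_mul (by positivity)]

end Pool.Agent.W391.PC.Sph1
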